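import Pool.Agent.H676.SC.Stm

/-!
# SC-REL: the relation of lying in a common 3-cycle of a permutation group
-/

set_option autoImplicit false

namespace Pool.Agent.H190.SC.REL

open Pool.Agent.H676.SC Equiv

variable {V : Type} [DecidableEq V]

theorem tri_x {x y z : V} (hxy : x ≠ y) (hzx : z ≠ x) : tri x y z x = y := by
  unfold tri
  rw [Perm.mul_apply, swap_apply_of_ne_of_ne hxy hzx.symm, swap_apply_left]

theorem tri_y {x y z : V} (hyz : y ≠ z) (hzx : z ≠ x) : tri x y z y = z := by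
  unfold tri
  rw [Perm.mul_apply, swap_apply_left, swap_apply_of_ne_of_ne hzx hyz.symm]

theorem tri_z (x y z : V) : tri x y z z = x := by
  unfold tri
  rw [Perm.mul_apply, swap_apply_right, swap_apply_right]

theorem tri_o {x y z v : V} (hx : v ≠ x) (hy : v ≠ y) (hz : v ≠ z) : tri x y z v = v := by
  unfold tri
  rw [Perm.mul_apply, swap_apply_of_ne_of_ne hy hz, swap_apply_of_ne_of_ne hx hy]

theorem tri_rot {x y z : V} (hxy : x ≠ y) (hyz : y ≠ z) (hzx : z ≠ x) :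
    tri x y z = tri y z x := by
  ext v
  by_cases h1 : v = x
  · rw [h1, tri_x hxy hzx, tri_z]
  by_cases h2 : v = y
  · rw [h2, tri_y hyz hzx, tri_x hyz hxy]
  by_cases h3 : v = z
  · rw [h3, tri_z, tri_y hzx hxy]
  rw [tri_o h1 h2 h3, tri_o h2 h3 h1]

theorem tri_inv (x y z : V) : (tri x y z)⁻¹ = tri z y x := by
  unfold tri
  rw [mul_inv_rev, swap_inv, swap_inv, swap_comm y z, swap_comm x y]

theorem tri_conj (σ : Perm V) (x y z : V) : σ * tri x y z * σ⁻¹ = tri (σ x) (σ y) (σ z) := by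
  unfold tri
  rw [swap_apply_apply, swap_apply_apply]
  group

variable {H : Subgroup (Perm V)}

theorem mem_rot {x y z : V} (hxy : x ≠ y) (hyz : y ≠ z) (hzx : z ≠ x) (h : tri x y z ∈ H) :
    tri y z x ∈ H := by
  rwa [← tri_rot hxy hyz hzx]

theorem mem_inv {x y z : V} (h : tri x y z ∈ H) : tri z y x ∈ H := by
  rw [← tri_inv]
  exact H.inv_mem h

theorem mem_conj {σ : Perm V} (hσ : σ ∈ H) {x y z : V} (h : tri x y z ∈ H) :
    tri (σ x) (σ y) (σ z) ∈ H := by
  rw [← tri_conj]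
  exact H.mul_mem (H.mul_mem hσ h) (H.inv_mem hσ)

theorem sim_symm {x y : V} (h : sim H x y) : sim H y x := by
  rcases h with h | ⟨z, hxy, hyz, hzx, h⟩
  · exact Or.inl h.symm
  · exact Or.inr ⟨z, hxy.symm, hzx.symm, hyz.symm,
      mem_rot hyz.symm hxy.symm hzx.symm (mem_inv h)⟩

theorem sim_trans {x y w : V} (h1 : sim H x y) (h2 : sim H y w) : sim H x w := by
  by_cases hxw : x = w
  · exact Or.inl hxw
  rcases h1 with h1 | ⟨z, hxy, hyz, hzx, h1⟩
  · rw [h1]; exact h2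
  rcases h2 with h2 | ⟨u, hyw, hwu, huy, h2⟩
  · rw [← h2]; exact Or.inr ⟨z, hxy, hyz, hzx, h1⟩
  by_cases hwz : w = z
  · rw [← hwz] at h1
    exact Or.inr ⟨y, hxw, hyw.symm, hxy.symm,
      mem_rot hxy.symm hxw (Ne.symm hyw) (mem_rot hyw.symm hxy.symm hxw (mem_inv h1))⟩
  · have e1 : (tri x y z)⁻¹ y = x := by
      rw [Perm.inv_eq_iff_eq, tri_x hxy hzx]
    have e2 : (tri x y z)⁻¹ w = w := by
      rw [Perm.inv_eq_iff_eq, tri_o (Ne.symm hxw) hyw.symm hwz]
    have h3 := mem_conj (H.inv_mem h1) h2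
    rw [e1, e2] at h3
    refine Or.inr ⟨(tri x y z)⁻¹ u, hxw, fun h => ?_, fun h => ?_, h3⟩
    · rw [← e2] at h
      exact hwu ((tri x y z)⁻¹.injective (by rw [e2] at h ⊢; exact h))
    · exact huy ((tri x y z)⁻¹.injective (by rw [e1]; exact h))

theorem tri_mem {x y z : V} (hxy : x ≠ y) (hyz : y ≠ z) (hzx : z ≠ x) (h1 : sim H x y)
    (h2 : sim H y z) : tri x y z ∈ H := by
  rcases h1 with h1 | ⟨u, -, hyu, hux, h1⟩
  · exact absurd h1 hxy
  rcases h2 with h2 | ⟨v, -, hzv, hvy, h2⟩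
  · exact absurd h2 hyz
  by_cases huz : u = z
  · rwa [huz] at h1
  by_cases hvx : v = x
  · rw [hvx] at h2
    exact mem_rot hzx hxy hyz (mem_rot hyz hzx hxy h2)
  have e1 : (tri x y u)⁻¹ y = x := by
    rw [Perm.inv_eq_iff_eq, tri_x hxy hux]
  have e2 : (tri x y u)⁻¹ z = z := by
    rw [Perm.inv_eq_iff_eq, tri_o hzx hyz.symm (Ne.symm huz)]
  have h3 := mem_conj (H.inv_mem h1) h2
  rw [e1, e2] at h3
  by_cases hvu : v = u
  · have e3 : (tri x y u)⁻¹ v = y := by
      rw [Perm.inv_eq_iff_eq, tri_y hyu hux, hvu]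
    rw [e3] at h3
    exact mem_rot hzx hxy hyz (mem_rot hyz hzx hxy (mem_inv h3))
  · have e3 : (tri x y u)⁻¹ v = v := by
      rw [Perm.inv_eq_iff_eq, tri_o hvx hvy hvu]
    rw [e3] at h3
    have e4 : tri y z v * (tri x z v)⁻¹ = tri x y z := by
      rw [tri_rot hxy hyz hzx]
      unfold tri
      rw [mul_inv_rev, swap_inv, swap_inv, mul_assoc, ← mul_assoc (swap z v), swap_mul_self,
        one_mul, swap_comm x z]
    rw [← e4]
    exact H.mul_mem h2 (H.inv_mem h3)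

/-- SC-REL -/
theorem t_REL : Pool.Agent.H676.SC.S_REL := by
  intro V _ _ H
  refine ⟨⟨fun x => Or.inl rfl, sim_symm, sim_trans⟩, ?_, ?_⟩
  · intro x y z hxy hyz hzx h1 h2
    exact tri_mem hxy hyz hzx h1 h2
  · intro σ hσ x y h
    rcases h with h | ⟨z, hxy, hyz, hzx, h⟩
    · exact Or.inl (congrArg σ h)
    · exact Or.inr ⟨σ z, fun e => hxy (σ.injective e), fun e => hyz (σ.injective e),
        fun e => hzx (σ.injective e), mem_conj hσ h⟩

end Pool.Agent.H190.SC.REL
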